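import Pool.Agent.H3.SQ.STA

/-!
Module INIT: the initial configuration.
-/

namespace Pool.Agent.H45.SQ

open Finset Polynomial
open scoped BigOperators ComplexConjugate ComplexOrder

namespace H3

theorem hsq_le_one {G : Type} [Fintype G] [Nonempty G] {M : Matrix G G ℂ} (h : EntLe M 1) :
    hsq M ≤ 1 := by
  have hN : (0 : ℝ) < Fintype.card G := by exact_mod_cast Fintype.card_pos
  unfold hsq
  calc ∑ y, ∑ y', ‖M y y'‖ ^ 2 ≤ ∑ y : G, ∑ y' : G, (1 / (Fintype.card G : ℝ)) ^ 2 := by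
        refine Finset.sum_le_sum fun y _ => Finset.sum_le_sum fun y' _ => ?_
        exact pow_le_pow_left₀ (norm_nonneg _) (h y y') 2
    _ = 1 := by
        simp only [Finset.sum_const, Finset.card_univ, nsmul_eq_mul]
        field_simp

theorem proj_psd {G : Type} [Fintype G] {P : Matrix G G ℂ} (hP : Proj P) : P.PosSemidef := by
  have h1 : P = P.conjTranspose * P := by rw [hP.1.eq, hP.2]
  rw [h1]
  exact Matrix.posSemidef_conjTranspose_mul_self P

end H3

open H3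

theorem init (hT3 : T_T3) (hI : T_INI1) (hM : T_THM) (hR : T_RHO) (hP : T_POLY) (hE : T_ENT)
    (hT : T_TWI) : T_INIT := by
  intro δ hδ
  set ε : ℝ := min 1 ((δ ^ 2 / 12) ^ 2) with hε
  have hε0 : 0 < ε := lt_min one_pos (by positivity)
  have hε1 : ε ≤ 1 := min_le_left _ _
  have hsε : Real.sqrt ε ≤ δ ^ 2 / 12 := by
    rw [← Real.sqrt_sq (show (0 : ℝ) ≤ δ ^ 2 / 12 by positivity)]
    exact Real.sqrt_le_sqrt (min_le_right _ _)
  obtain ⟨J, q, Λ, hq, hini⟩ := hI ε hε0 hε1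
  have hpol := fun j : Fin J => hP (q j) (hq j).1 1
  choose C' hC' using hpol
  set D : ℕ := ⌊2 / ε⌋₊ with hD
  set κ := (Fin J × Fin (D + 1)) × (Fin J × Fin (D + 1)) × (Fin J × Fin (D + 1)) with hκ
  refine ⟨(∑ j, |C' j|) + 1, Λ, δ ^ 2 / 4, (δ ^ 2 / 2) / ((Fintype.card κ : ℝ) + 1), D,
    by positivity, by positivity, by positivity, ?_⟩
  intro G _ _ _ _ f hf hU
  have hG : Nonempty G := ⟨0⟩
  have hN : (0 : ℝ) < Fintype.card G := by exact_mod_cast Fintype.card_pos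
  obtain ⟨r1, r2, r3, r4, -, -⟩ := hR G f hf
  have rE := (hE G (rho f) 1 r1).2.1
  -- the data for each degree
  have hdat : ∀ s : G, ∃ (j : Fin J) (d : ℕ) (P : Matrix G G ℂ), d ≤ D ∧
      Gap (aeval (mat (rho f) s) (q j)) P d ∧ (P - mat (rho f) s * P).PosSemidef ∧
      (mat (rho f) s * P).PosSemidef ∧ hsq (mat (rho f) s - mat (rho f) s * P) ≤ ε ∧
      EntLe (mat (rho f) s * P) 1 := by
    intro s
    obtain ⟨-, j, d, P, h1, h2, -, h4, h5, h6, h7⟩ := hini G (mat (rho f) s) (r3 s) (r4 s) (rE s)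
    exact ⟨j, d, P, Nat.le_floor h1, h2, h4, h5, h6, h7⟩
  choose jj dd PP hdd hgap hps1 hps2 hhs hent using hdat
  set ρ := fun s => mat (rho f) s with hρ
  -- the good pairs
  set F : G × G → ℝ := fun z => (Th z.1 z.2 (ρ z.1) (ρ z.2) (ρ (z.1 + z.2))).re with hF
  set S₀ : Finset (G × G) := Finset.univ.filter fun z => δ ^ 2 / 2 ≤ F z with hS₀
  have hF1 : ∀ z, F z ≤ 1 := by
    intro z
    have h1 := (hM G z.1 z.2 (ρ z.1) (ρ z.1) (ρ z.2) (ρ (z.1 + z.2))).2 1 (rE z.2)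
    have h2 : Real.sqrt (hsq (ρ z.1)) ≤ 1 := by
      rw [Real.sqrt_le_one]
      exact hsq_le_one (rE z.1)
    have h3 : Real.sqrt (hsq (ρ (z.1 + z.2))) ≤ 1 := by
      rw [Real.sqrt_le_one]
      exact hsq_le_one (rE _)
    have h4 := Real.sqrt_nonneg (hsq (ρ z.1))
    have h5 := Real.sqrt_nonneg (hsq (ρ (z.1 + z.2)))
    calc F z ≤ ‖Th z.1 z.2 (ρ z.1) (ρ z.2) (ρ (z.1 + z.2))‖ := Complex.re_le_norm _
      _ ≤ _ := h1
      _ ≤ 1 := by nlinarith
  have hmean : δ ^ 2 * (Fintype.card G : ℝ) ^ 2 ≤ ∑ z, F z := by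
    have h1 := hT3 G f hf
    have h2 : δ ^ 2 ≤ (U8 f) ^ 2 := pow_le_pow_left₀ hδ.le hU 2
    have h3 : (𝔼 s : G, 𝔼 t : G, (Th s t (mat (rho f) s) (mat (rho f) t)
        (mat (rho f) (s + t))).re) = (∑ z, F z) / (Fintype.card G : ℝ) ^ 2 := by
      rw [Fintype.expect_eq_sum_div_card, Fintype.sum_prod_type]
      have h4 : ∀ s : G, (𝔼 t : G, (Th s t (mat (rho f) s) (mat (rho f) t)
          (mat (rho f) (s + t))).re) = (∑ t : G, F (s, t)) / (Fintype.card G : ℝ) := by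
        intro s
        rw [Fintype.expect_eq_sum_div_card]
      rw [Finset.sum_congr rfl fun s _ => h4 s, ← Finset.sum_div, div_div, sq]
    rw [h3] at h1
    have h5 := h2.trans h1
    rwa [le_div_iff₀ (by positivity)] at h5
  have hS₀card : δ ^ 2 / 2 * (Fintype.card G : ℝ) ^ 2 ≤ S₀.card := by
    have h1 : ∑ z, F z ≤ (S₀.card : ℝ) + δ ^ 2 / 2 * (Fintype.card G : ℝ) ^ 2 := by
      have h2 : ∀ z, F z ≤ (if z ∈ S₀ then 1 else 0) + δ ^ 2 / 2 := by
        intro z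
        by_cases hz : z ∈ S₀
        · rw [if_pos hz]
          have := hF1 z
          nlinarith [sq_nonneg δ]
        · rw [if_neg hz]
          have : ¬ δ ^ 2 / 2 ≤ F z := by
            intro h
            exact hz (by rw [hS₀, Finset.mem_filter]; exact ⟨Finset.mem_univ _, h⟩)
          push Not at this
          linarith
      calc ∑ z, F z ≤ ∑ z : G × G, ((if z ∈ S₀ then (1 : ℝ) else 0) + δ ^ 2 / 2) :=
            Finset.sum_le_sum fun z _ => h2 z
        _ = _ := by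
            rw [Finset.sum_add_distrib, Finset.sum_const, Finset.card_univ, Fintype.card_prod,
              Finset.sum_ite_mem, Finset.univ_inter, Finset.sum_const, nsmul_eq_mul, nsmul_eq_mul]
            push_cast
            ring
    linarith
  -- theta for the projections
  have hpp : ∀ s, (PP s).PosSemidef := fun s => proj_psd (hgap s).proj
  have hrot : ∀ (s t : G) (A B C : Matrix G G ℂ), Th s t A B C = Th t (s + t) B C A :=
    fun s t A B C => (hT G s t A A A B C).2.2.2.2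
  have hstt : ∀ s t : G, t + (s + t) = s := by
    intro s t
    rw [add_comm s t, add_add_self]
  have hθ : ∀ z ∈ S₀, δ ^ 2 / 4 ≤ (Th z.1 z.2 (PP z.1) (PP z.2) (PP (z.1 + z.2))).re := by
    rintro ⟨s, t⟩ hz
    have hz' : δ ^ 2 / 2 ≤ (Th s t (ρ s) (ρ t) (ρ (s + t))).re := by
      rw [hS₀, Finset.mem_filter] at hz
      exact hz.2
    change δ ^ 2 / 4 ≤ (Th s t (PP s) (PP t) (PP (s + t))).re
    set u := s + t with hu
    -- monotonicity
    have m1 : (Th s t (ρ s * PP s) (ρ t * PP t) (ρ u * PP u)).re ≤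
        (Th s t (PP s) (ρ t * PP t) (ρ u * PP u)).re :=
      (hM G s t (ρ s * PP s) (PP s) (ρ t * PP t) (ρ u * PP u)).1 (hps1 s) (hps2 t) (hps2 u)
    have m2 : (Th s t (PP s) (ρ t * PP t) (ρ u * PP u)).re ≤
        (Th s t (PP s) (PP t) (ρ u * PP u)).re := by
      rw [hrot s t (PP s) (ρ t * PP t), hrot s t (PP s) (PP t)]
      exact (hM G t (s + t) (ρ t * PP t) (PP t) (ρ u * PP u) (PP s)).1 (hps1 t) (hps2 u) (hpp s)
    have m3 : (Th s t (PP s) (PP t) (ρ u * PP u)).re ≤ (Th s t (PP s) (PP t) (PP u)).re := by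
      rw [hrot s t (PP s) (PP t) (ρ u * PP u), hrot s t (PP s) (PP t) (PP u), hrot t, hrot t]
      exact (hM G _ _ (ρ u * PP u) (PP u) (PP s) (PP t)).1 (hps1 u) (hpp s) (hpp t)
    -- error terms
    have hsub : ∀ (A A' B C : Matrix G G ℂ), Th s t (A - A') B C = Th s t A B C - Th s t A' B C :=
      fun A A' B C => Th_sub s t A A' B C
    have hone : ∀ v, Real.sqrt (hsq (ρ v)) ≤ 1 := fun v => by
      rw [Real.sqrt_le_one]; exact hsq_le_one (rE v)
    have hone' : ∀ v, Real.sqrt (hsq (ρ v * PP v)) ≤ 1 := fun v => by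
      rw [Real.sqrt_le_one]; exact hsq_le_one (hent v)
    have hsm : ∀ v, Real.sqrt (hsq (ρ v - ρ v * PP v)) ≤ Real.sqrt ε := fun v =>
      Real.sqrt_le_sqrt (hhs v)
    have hmul : ∀ {a b c : ℝ}, 0 ≤ a → 0 ≤ b → a ≤ c → b ≤ 1 → 1 * a * b ≤ c := by
      intro a b c ha hb hac hb1
      nlinarith
    have t1 : ‖Th s t (ρ s - ρ s * PP s) (ρ t) (ρ u)‖ ≤ Real.sqrt ε :=
      ((hM G s t (ρ s - ρ s * PP s) 0 (ρ t) (ρ u)).2 1 (rE t)).trans
        (hmul (Real.sqrt_nonneg _) (Real.sqrt_nonneg _) (hsm s) (hone u))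
    have t2 : ‖Th s t (ρ s * PP s) (ρ t - ρ t * PP t) (ρ u)‖ ≤ Real.sqrt ε := by
      rw [hrot]
      exact ((hM G t (s + t) (ρ t - ρ t * PP t) 0 (ρ u) (ρ s * PP s)).2 1 (rE u)).trans
        (hmul (Real.sqrt_nonneg _) (Real.sqrt_nonneg _) (hsm t) (hone' s))
    have t3 : ‖Th s t (ρ s * PP s) (ρ t * PP t) (ρ u - ρ u * PP u)‖ ≤ Real.sqrt ε := by
      refine ((hM G s t (ρ s * PP s) 0 (ρ t * PP t) (ρ u - ρ u * PP u)).2 1 (hent t)).trans ?_
      have := hmul (Real.sqrt_nonneg (hsq (ρ u - ρ u * PP u)))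
        (Real.sqrt_nonneg (hsq (ρ s * PP s))) (hsm u) (hone' s)
      linarith
    have tel : Th s t (ρ s) (ρ t) (ρ u) - Th s t (ρ s * PP s) (ρ t * PP t) (ρ u * PP u) =
        Th s t (ρ s - ρ s * PP s) (ρ t) (ρ u) + Th s t (ρ s * PP s) (ρ t - ρ t * PP t) (ρ u) +
          Th s t (ρ s * PP s) (ρ t * PP t) (ρ u - ρ u * PP u) := by
      unfold Th
      rw [← mul_add, ← mul_add, ← mul_sub]
      congr 1
      rw [← Finset.sum_add_distrib, ← Finset.sum_add_distrib, ← Finset.sum_sub_distrib]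
      refine Finset.sum_congr rfl fun y _ => ?_
      rw [← Finset.sum_add_distrib, ← Finset.sum_add_distrib, ← Finset.sum_sub_distrib]
      refine Finset.sum_congr rfl fun y' _ => ?_
      simp only [Matrix.sub_apply]
      ring
    have tre : (Th s t (ρ s) (ρ t) (ρ u)).re -
        (Th s t (ρ s * PP s) (ρ t * PP t) (ρ u * PP u)).re ≤ 3 * Real.sqrt ε := by
      rw [← Complex.sub_re, tel]
      refine (Complex.re_le_norm _).trans ((norm_add₃_le).trans ?_)
      linarith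
    linarith
  -- the families
  have hfam := fun j : Fin J => hC' j G (rho f) r1 r2
  choose L hL1 hL2 hL3 using hfam
  have hdom : ∀ j, Dom f Λ (L j) := by
    intro j s g
    rw [hL3 j s]
    exact (hini G (mat (rho f) s) (r3 s) (r4 s) (rE s)).1 j g
  have hsep : ∀ j, Sep ((∑ j, |C' j|) + 1) (L j) := by
    intro j
    refine sep_mono (hL1 j) ?_
    have h1 : |C' j| ≤ ∑ j, |C' j| :=
      Finset.single_le_sum (f := fun j => |C' j|) (fun i _ => abs_nonneg _) (Finset.mem_univ j)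
    have h2 := le_abs_self (C' j)
    linarith
  -- pigeonhole
  let dt : G → Fin J × Fin (D + 1) := fun s => (jj s, ⟨dd s, by have := hdd s; omega⟩)
  let col : G × G → κ := fun z => (dt z.1, dt z.2, dt (z.1 + z.2))
  obtain ⟨k, hk⟩ : ∃ k : κ, (δ ^ 2 / 2) / ((Fintype.card κ : ℝ) + 1) * (Fintype.card G : ℝ) ^ 2 ≤
      ((S₀.filter fun z => col z = k).card : ℝ) := by
    by_contra hcon
    push Not at hcon
    have h1 : (S₀.card : ℝ) = ∑ k : κ, ((S₀.filter fun z => col z = k).card : ℝ) := by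
      rw [← Nat.cast_sum]
      congr 1
      exact Finset.card_eq_sum_card_fiberwise fun z _ => Finset.mem_univ _
    have h2 : (S₀.card : ℝ) ≤ ∑ k : κ, (δ ^ 2 / 2) / ((Fintype.card κ : ℝ) + 1) *
        (Fintype.card G : ℝ) ^ 2 := by
      rw [h1]
      exact Finset.sum_le_sum fun k _ => (hcon k).le
    rw [Finset.sum_const, Finset.card_univ, nsmul_eq_mul] at h2
    have h3 : (Fintype.card κ : ℝ) * ((δ ^ 2 / 2) / ((Fintype.card κ : ℝ) + 1) *
        (Fintype.card G : ℝ) ^ 2) < δ ^ 2 / 2 * (Fintype.card G : ℝ) ^ 2 := by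
      have hc : (0 : ℝ) ≤ Fintype.card κ := Nat.cast_nonneg _
      have h4 : (Fintype.card κ : ℝ) / ((Fintype.card κ : ℝ) + 1) < 1 := by
        rw [div_lt_one (by positivity)]
        linarith
      have h5 : 0 < δ ^ 2 / 2 * (Fintype.card G : ℝ) ^ 2 := by positivity
      calc (Fintype.card κ : ℝ) * ((δ ^ 2 / 2) / ((Fintype.card κ : ℝ) + 1) *
            (Fintype.card G : ℝ) ^ 2) = ((Fintype.card κ : ℝ) / ((Fintype.card κ : ℝ) + 1)) *
            (δ ^ 2 / 2 * (Fintype.card G : ℝ) ^ 2) := by ring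
        _ < 1 * (δ ^ 2 / 2 * (Fintype.card G : ℝ) ^ 2) := mul_lt_mul_of_pos_right h4 h5
        _ = _ := one_mul _
    linarith
  have hmem : ∀ z ∈ S₀.filter (fun z => col z = k), z ∈ S₀ ∧ dt z.1 = k.1 ∧ dt z.2 = k.2.1 ∧
      dt (z.1 + z.2) = k.2.2 := by
    intro z hz
    obtain ⟨h1, h2⟩ := Finset.mem_filter.1 hz
    rw [← h2]
    exact ⟨h1, rfl, rfl, rfl⟩
  have hgap' : ∀ s k, dt s = k → Gap (mat (L k.1) s) (PP s) k.2 := by
    rintro s k rfl
    rw [hL3]
    exact hgap s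
  refine ⟨k.1.2, k.2.1.2, k.2.2.2, by omega, by omega, by omega, L k.1.1, L k.2.1.1, L k.2.2.1,
    PP, PP, PP, S₀.filter fun z => col z = k, ⟨hsep _, hsep _, hsep _, hL2 _, hL2 _, hL2 _,
    hdom _, hdom _, hdom _, hk, ?_, ?_, ?_, ?_⟩⟩
  · intro z hz
    exact hgap' _ _ (hmem z hz).2.1
  · intro z hz
    exact hgap' _ _ (hmem z hz).2.2.1
  · intro z hz
    exact hgap' _ _ (hmem z hz).2.2.2
  · intro z hz
    exact hθ z (hmem z hz).1

end Pool.Agent.H45.SQ
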