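import Pool.Agent.H81.SQ.Targets

/-!
Module OCT: the octahedral average is controlled by the Fourier coefficients of `g₁`.
-/

namespace Pool.Agent.H81.SQ

open Finset Pool.Agent.H36Sq
open scoped BigOperators ComplexConjugate

namespace H3

section gen

variable {ι κ : Type*} [Fintype ι] [Fintype κ]

theorem ex_mono [Nonempty ι] {f g : ι → ℝ} (h : ∀ i, f i ≤ g i) : 𝔼 i, f i ≤ 𝔼 i, g i :=
  Finset.expect_le_expect fun i _ => h i

theorem cs (a b : ι → ℝ) (ha : ∀ i, |a i| ≤ 1) : (𝔼 i, a i * b i) ^ 2 ≤ 𝔼 i, (b i) ^ 2 := by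
  rcases isEmpty_or_nonempty ι with h | h
  · simp [Finset.univ_eq_empty]
  rw [Fintype.expect_eq_sum_div_card, Fintype.expect_eq_sum_div_card]
  have hc : (0 : ℝ) < Fintype.card ι := by exact_mod_cast Fintype.card_pos
  rw [div_pow, div_le_div_iff₀ (by positivity) hc]
  have h1 : (∑ i, a i * b i) ^ 2 ≤ (∑ i, (a i) ^ 2) * ∑ i, (b i) ^ 2 :=
    Finset.sum_mul_sq_le_sq_mul_sq _ _ _
  have h2 : ∑ i, (a i) ^ 2 ≤ Fintype.card ι := by
    calc ∑ i, (a i) ^ 2 ≤ ∑ i : ι, (1 : ℝ) := by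
          refine Finset.sum_le_sum fun i _ => ?_
          have := ha i
          rw [← sq_abs]
          have h0 := abs_nonneg (a i)
          nlinarith
      _ = Fintype.card ι := by simp
  have h3 : 0 ≤ ∑ i, (b i) ^ 2 := Finset.sum_nonneg fun i _ => sq_nonneg _
  calc (∑ i, a i * b i) ^ 2 * (Fintype.card ι : ℝ) ≤
      ((Fintype.card ι : ℝ) * ∑ i, (b i) ^ 2) * (Fintype.card ι : ℝ) := by
        refine mul_le_mul_of_nonneg_right (h1.trans ?_) hc.le
        exact mul_le_mul_of_nonneg_right h2 h3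
    _ = _ := by ring

theorem cs1 (b : ι → ℝ) : (𝔼 i, b i) ^ 2 ≤ 𝔼 i, (b i) ^ 2 := by
  have := cs (fun _ => (1 : ℝ)) b (fun i => by simp)
  simpa using this

end gen

section V

variable {V : Type} [AddCommGroup V] [Module (ZMod 2) V] [Fintype V]

omit [Fintype V] in
theorem add_self (x : V) : x + x = 0 := by
  have h := two_smul (ZMod 2) x
  have h2 : (2 : ZMod 2) = 0 := by decide
  rw [h2, zero_smul] at h
  exact h.symm

omit [Fintype V] in
theorem add_add_self (x y : V) : x + (x + y) = y := by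
  rw [← add_assoc, add_self, zero_add]

omit [Module (ZMod 2) V] in
/-- translation invariance -/
theorem ex_tr (f : V → ℝ) (a : V) : 𝔼 x : V, f (a + x) = 𝔼 x : V, f x :=
  Fintype.expect_equiv (Equiv.addLeft a) _ _ fun _ => rfl

noncomputable instance instFintypeDual : Fintype (Module.Dual (ZMod 2) V) :=
  @Fintype.ofFinite _ (Finite.of_injective (fun f : Module.Dual (ZMod 2) V => (f : V → ZMod 2))
    DFunLike.coe_injective)

/-- Fourier coefficient -/
noncomputable def ft (f : V → ℝ) (χ : Module.Dual (ZMod 2) V) : ℝ := 𝔼 v : V, f v * sg (χ v)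

theorem card_dual : (Fintype.card (Module.Dual (ZMod 2) V) : ℝ) = Fintype.card V := by
  have h1 := Module.card_eq_pow_finrank (K := ZMod 2) (V := V)
  have h2 := Module.card_eq_pow_finrank (K := ZMod 2) (V := Module.Dual (ZMod 2) V)
  rw [h1, h2, Subspace.dual_finrank_eq]

open Classical in
theorem sum_char (v : V) : ∑ χ : Module.Dual (ZMod 2) V, sg (χ v) =
    if v = 0 then (Fintype.card V : ℝ) else 0 := by
  by_cases hv : v = 0
  · subst hv
    rw [if_pos rfl]
    simp only [map_zero, sg_zero]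
    rw [Finset.sum_const, Finset.card_univ, nsmul_eq_mul, mul_one, card_dual]
  · rw [if_neg hv]
    apply sum_sg_hom (fun χ : Module.Dual (ZMod 2) V => χ v) (fun χ χ' => rfl)
    by_contra hcon
    push Not at hcon
    exact hv ((Module.forall_dual_apply_eq_zero_iff (ZMod 2) v).1 hcon)

open Classical in
/-- Parseval -/
theorem parseval (f : V → ℝ) : ∑ χ, (ft f χ) ^ 2 = 𝔼 v : V, (f v) ^ 2 := by
  have hc : (Fintype.card V : ℝ) ≠ 0 := by
    have : Nonempty V := ⟨0⟩
    exact_mod_cast Fintype.card_ne_zero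
  have h1 : ∀ χ : Module.Dual (ZMod 2) V, (ft f χ) ^ 2 =
      (∑ x : V, ∑ y : V, f x * f y * sg (χ (x + y))) / (Fintype.card V : ℝ) ^ 2 := by
    intro χ
    unfold ft
    rw [Fintype.expect_eq_sum_div_card, div_pow, sq (∑ v : V, f v * sg (χ v)), Finset.sum_mul_sum]
    congr 1
    refine Finset.sum_congr rfl fun x _ => Finset.sum_congr rfl fun y _ => ?_
    rw [map_add, sg_add]
    ring
  rw [Finset.sum_congr rfl fun χ _ => h1 χ, ← Finset.sum_div, Finset.sum_comm]
  have h2 : ∀ x : V, ∑ χ : Module.Dual (ZMod 2) V, ∑ y : V, f x * f y * sg (χ (x + y)) =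
      (f x) ^ 2 * Fintype.card V := by
    intro x
    rw [Finset.sum_comm]
    have h3 : ∀ y : V, ∑ χ : Module.Dual (ZMod 2) V, f x * f y * sg (χ (x + y)) =
        if y = x then (f x) ^ 2 * Fintype.card V else 0 := by
      intro y
      rw [← Finset.mul_sum, sum_char]
      by_cases hy : y = x
      · subst hy
        rw [if_pos rfl, add_self, if_pos rfl]
        ring
      · rw [if_neg hy, if_neg, mul_zero]
        intro h
        apply hy
        have := add_add_self x y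
        rw [h, add_zero] at this
        exact this.symm
    rw [Finset.sum_congr rfl fun y _ => h3 y, Finset.sum_ite_eq']
    simp
  rw [Finset.sum_congr rfl fun x _ => h2 x, ← Finset.sum_mul, Fintype.expect_eq_sum_div_card]
  field_simp

/-- correlation -/
noncomputable def corr (g : V → ℝ) (t : V) : ℝ := 𝔼 h : V, g h * g (h + t)

theorem ft_corr (g : V → ℝ) (χ : Module.Dual (ZMod 2) V) : ft (corr g) χ = (ft g χ) ^ 2 := by
  unfold ft corr
  have h1 : ∀ t : V, (𝔼 h : V, g h * g (h + t)) * sg (χ t) =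
      𝔼 h : V, (g h * sg (χ h)) * (g (h + t) * sg (χ (h + t))) := by
    intro t
    rw [Finset.expect_mul]
    refine Finset.expect_congr rfl fun h _ => ?_
    rw [map_add, sg_add]
    have := sg_mul_self (χ h)
    linear_combination (g h * g (h + t) * sg (χ t)) * (-this)
  rw [Finset.expect_congr rfl fun t _ => h1 t, Finset.expect_comm, sq, Finset.expect_mul]
  refine Finset.expect_congr rfl fun h _ => ?_
  rw [← Finset.mul_expect, ex_tr (fun v => g v * sg (χ v)) h]

theorem corr_sq_le {g : V → ℝ} {κ : ℝ} (hg : ∀ v, |g v| ≤ 1)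
    (hκ : ∀ χ : Module.Dual (ZMod 2) V, |𝔼 v : V, g v * sg (χ v)| ≤ κ) :
    𝔼 t : V, (corr g t) ^ 2 ≤ κ ^ 2 := by
  have : Nonempty V := ⟨0⟩
  rw [← parseval]
  have h1 : ∀ χ : Module.Dual (ZMod 2) V, (ft (corr g) χ) ^ 2 ≤ κ ^ 2 * (ft g χ) ^ 2 := by
    intro χ
    rw [ft_corr]
    have h2 : (ft g χ) ^ 2 ≤ κ ^ 2 := by
      rw [← sq_abs (ft g χ)]
      exact pow_le_pow_left₀ (abs_nonneg _) (hκ χ) 2
    have h3 := sq_nonneg (ft g χ)
    nlinarith
  refine (Finset.sum_le_sum fun χ _ => h1 χ).trans ?_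
  rw [← Finset.mul_sum, parseval]
  have h2 : 𝔼 v : V, (g v) ^ 2 ≤ 1 := by
    calc 𝔼 v : V, (g v) ^ 2 ≤ 𝔼 v : V, (1 : ℝ) := by
          refine ex_mono fun v => ?_
          have := hg v
          rw [← sq_abs]
          have h0 := abs_nonneg (g v)
          nlinarith
      _ = 1 := Fintype.expect_const 1
  have h3 := sq_nonneg κ
  nlinarith

omit [Module (ZMod 2) V] in
theorem corr_le {g : V → ℝ} (hg : ∀ v, |g v| ≤ 1) (t : V) : |corr g t| ≤ 1 := by
  have : Nonempty V := ⟨0⟩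
  unfold corr
  refine (Finset.abs_expect_le _ _).trans ?_
  calc 𝔼 h : V, |g h * g (h + t)| ≤ 𝔼 h : V, (1 : ℝ) := by
        refine ex_mono fun h => ?_
        rw [abs_mul]
        exact mul_le_one₀ (hg _) (abs_nonneg _) (hg _)
    _ = 1 := Fintype.expect_const 1

end V

end H3

open H3

theorem oct : T_OCT := by
  intro V _ _ _ g₁ g₂ g₃ g₄ g₅ g₆ κ h1 h2 h3 h4 h5 h6 hκ
  have hne : Nonempty V := ⟨0⟩
  have hκ0 : 0 ≤ κ := (abs_nonneg _).trans (hκ 0)
  -- substitution
  have e1 : (𝔼 h : V, 𝔼 k : V, 𝔼 d : V,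
      g₁ h * g₂ (h + d) * g₃ k * g₄ (k + d) * g₅ (h + k) * g₆ (h + k + d)) =
      𝔼 k : V, 𝔼 s : V, (g₂ s * g₃ k * g₆ (k + s)) *
        (𝔼 h : V, g₁ h * (g₄ (k + s + h) * g₅ (k + h))) := by
    have e2 : ∀ h k : V, (𝔼 d : V,
        g₁ h * g₂ (h + d) * g₃ k * g₄ (k + d) * g₅ (h + k) * g₆ (h + k + d)) =
        𝔼 s : V, (g₂ s * g₃ k * g₆ (k + s)) * (g₁ h * (g₄ (k + s + h) * g₅ (k + h))) := by
      intro h k
      rw [← ex_tr (fun d => g₁ h * g₂ (h + d) * g₃ k * g₄ (k + d) * g₅ (h + k) * g₆ (h + k + d)) h]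
      refine Finset.expect_congr rfl fun s _ => ?_
      have a1 : h + (h + s) = s := add_add_self h s
      have a2 : k + (h + s) = k + s + h := by abel
      have a3 : h + k + (h + s) = k + s := by
        rw [show h + k + (h + s) = k + (h + (h + s)) by abel, a1]
      rw [a1, a2, a3, add_comm h k]
      ring
    have e3 : ∀ h : V, (𝔼 k : V, 𝔼 d : V,
        g₁ h * g₂ (h + d) * g₃ k * g₄ (k + d) * g₅ (h + k) * g₆ (h + k + d)) =
        𝔼 k : V, 𝔼 s : V, (g₂ s * g₃ k * g₆ (k + s)) * (g₁ h * (g₄ (k + s + h) * g₅ (k + h))) :=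
      fun h => Finset.expect_congr rfl fun k _ => e2 h k
    rw [Finset.expect_congr rfl fun h _ => e3 h, Finset.expect_comm]
    refine Finset.expect_congr rfl fun k _ => ?_
    rw [Finset.expect_comm]
    refine Finset.expect_congr rfl fun s _ => ?_
    rw [Finset.mul_expect]
  rw [e1]
  -- Cauchy-Schwarz
  have e4 : (𝔼 k : V, 𝔼 s : V, (g₂ s * g₃ k * g₆ (k + s)) *
        (𝔼 h : V, g₁ h * (g₄ (k + s + h) * g₅ (k + h)))) ^ 2 ≤
      𝔼 k : V, 𝔼 s : V, (𝔼 h : V, g₁ h * (g₄ (k + s + h) * g₅ (k + h))) ^ 2 := by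
    refine (cs1 _).trans (ex_mono fun k => cs _ _ fun s => ?_)
    rw [abs_mul, abs_mul]
    exact mul_le_one₀ (mul_le_one₀ (h2 _) (abs_nonneg _) (h3 _)) (abs_nonneg _) (h6 _)
  -- expansion of the square
  have e5 : (𝔼 k : V, 𝔼 s : V, (𝔼 h : V, g₁ h * (g₄ (k + s + h) * g₅ (k + h))) ^ 2) =
      𝔼 t : V, (corr g₄ t * corr g₅ t) * corr g₁ t := by
    have e6 : ∀ k s : V, (𝔼 h : V, g₁ h * (g₄ (k + s + h) * g₅ (k + h))) ^ 2 =
        𝔼 t : V, 𝔼 h : V, (g₁ h * g₁ (h + t)) * ((g₅ (k + h) * g₅ (k + h + t)) *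
          (g₄ (k + h + s) * g₄ (k + h + s + t))) := by
      intro k s
      rw [sq, Finset.expect_mul_expect, Finset.expect_comm]
      have e7 : ∀ i : V, (𝔼 j : V, g₁ j * (g₄ (k + s + j) * g₅ (k + j)) *
          (g₁ i * (g₄ (k + s + i) * g₅ (k + i)))) =
          𝔼 t : V, (g₁ i * g₁ (i + t)) * ((g₅ (k + i) * g₅ (k + i + t)) *
          (g₄ (k + i + s) * g₄ (k + i + s + t))) := by
        intro i
        rw [← ex_tr (fun j => g₁ j * (g₄ (k + s + j) * g₅ (k + j)) *
          (g₁ i * (g₄ (k + s + i) * g₅ (k + i)))) i]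
        refine Finset.expect_congr rfl fun t _ => ?_
        have a1 : k + s + (i + t) = k + i + s + t := by abel
        have a2 : k + s + i = k + i + s := by abel
        have a3 : k + (i + t) = k + i + t := by abel
        rw [a1, a2, a3]
        ring
      rw [Finset.expect_congr rfl fun i _ => e7 i, Finset.expect_comm]
    have e8 : (𝔼 k : V, 𝔼 s : V, (𝔼 h : V, g₁ h * (g₄ (k + s + h) * g₅ (k + h))) ^ 2) =
        𝔼 k : V, 𝔼 s : V, 𝔼 t : V, 𝔼 h : V, (g₁ h * g₁ (h + t)) * ((g₅ (k + h) * g₅ (k + h + t)) *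
          (g₄ (k + h + s) * g₄ (k + h + s + t))) :=
      Finset.expect_congr rfl fun k _ => Finset.expect_congr rfl fun s _ => e6 k s
    rw [e8]
    -- move t outside
    have e9 : ∀ k : V, (𝔼 s : V, 𝔼 t : V, 𝔼 h : V, (g₁ h * g₁ (h + t)) *
        ((g₅ (k + h) * g₅ (k + h + t)) * (g₄ (k + h + s) * g₄ (k + h + s + t)))) =
        𝔼 t : V, 𝔼 h : V, (g₁ h * g₁ (h + t)) * ((g₅ (k + h) * g₅ (k + h + t)) * corr g₄ t) := by
      intro k
      rw [Finset.expect_comm]
      refine Finset.expect_congr rfl fun t _ => ?_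
      rw [Finset.expect_comm]
      refine Finset.expect_congr rfl fun h _ => ?_
      rw [← Finset.mul_expect, ← Finset.mul_expect]
      congr 2
      exact ex_tr (fun s => g₄ s * g₄ (s + t)) (k + h)
    rw [Finset.expect_congr rfl fun k _ => e9 k, Finset.expect_comm]
    refine Finset.expect_congr rfl fun t _ => ?_
    rw [Finset.expect_comm]
    have e10 : ∀ h : V, (𝔼 k : V, (g₁ h * g₁ (h + t)) *
        ((g₅ (k + h) * g₅ (k + h + t)) * corr g₄ t)) =
        (g₁ h * g₁ (h + t)) * (corr g₅ t * corr g₄ t) := by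
      intro h
      rw [← Finset.mul_expect, ← Finset.expect_mul]
      congr 2
      have := ex_tr (fun s => g₅ s * g₅ (s + t)) h
      unfold corr
      rw [← this]
      refine Finset.expect_congr rfl fun k _ => ?_
      rw [add_comm k h]
    rw [Finset.expect_congr rfl fun h _ => e10 h, ← Finset.expect_mul]
    change corr g₁ t * (corr g₅ t * corr g₄ t) = _
    ring
  set Λ := 𝔼 k : V, 𝔼 s : V, (g₂ s * g₃ k * g₆ (k + s)) *
        (𝔼 h : V, g₁ h * (g₄ (k + s + h) * g₅ (k + h))) with hΛ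
  rw [e5] at e4
  have e11 : (𝔼 t : V, (corr g₄ t * corr g₅ t) * corr g₁ t) ^ 2 ≤ κ ^ 2 := by
    refine (cs _ _ fun t => ?_).trans (corr_sq_le h1 hκ)
    rw [abs_mul]
    exact mul_le_one₀ (corr_le h4 t) (abs_nonneg _) (corr_le h5 t)
  have e12 := abs_le_of_sq_le_sq e11 hκ0
  exact e4.trans ((le_abs_self _).trans e12)

end Pool.Agent.H81.SQ
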