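import Pool.Agent.H3.SQ.OCT

/-!
Modules OCT2 and TRI: regular functions are independent along octahedra and along `h, k, h + k`.
-/

namespace Pool.Agent.H81.SQ

open Finset Pool.Agent.H36Sq
open scoped BigOperators ComplexConjugate

namespace H3

section V

variable {V : Type} [AddCommGroup V] [Module (ZMod 2) V] [Fintype V]

/-- the octahedral average -/
noncomputable def Oc (g₁ g₂ g₃ g₄ g₅ g₆ : V → ℝ) : ℝ :=
  𝔼 h : V, 𝔼 k : V, 𝔼 d : V,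
      g₁ h * g₂ (h + d) * g₃ k * g₄ (k + d) * g₅ (h + k) * g₆ (h + k + d)

theorem oc_s1 (g₁ g₂ g₃ g₄ g₅ g₆ : V → ℝ) :
    Oc g₁ g₂ g₃ g₄ g₅ g₆ = Oc g₂ g₁ g₃ g₄ g₆ g₅ := by
  have e : ∀ a b c d e f : V → ℝ, Oc a b c d e f = 𝔼 k : V, 𝔼 x : V, 𝔼 h : V,
      a h * b (h + x) * c k * d (k + x) * e (h + k) * f (h + k + x) := by
    intro a b c d e f
    unfold Oc
    rw [Finset.expect_comm]
    refine Finset.expect_congr rfl fun k _ => ?_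
    rw [Finset.expect_comm]
  rw [e, e]
  refine Finset.expect_congr rfl fun k _ => Finset.expect_congr rfl fun x _ => ?_
  rw [← ex_tr (fun h => g₁ h * g₂ (h + x) * g₃ k * g₄ (k + x) * g₅ (h + k) * g₆ (h + k + x)) x]
  refine Finset.expect_congr rfl fun h _ => ?_
  have a1 : x + h + x = h := by
    rw [show x + h + x = x + (x + h) by abel, add_add_self]
  have a2 : x + h + k + x = h + k := by
    rw [show x + h + k + x = x + (x + (h + k)) by abel, add_add_self]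
  have a3 : x + h = h + x := add_comm _ _
  have a4 : x + h + k = h + k + x := by abel
  rw [a2, a1, a4, a3]
  ring

omit [Module (ZMod 2) V] in
theorem oc_s2 (g₁ g₂ g₃ g₄ g₅ g₆ : V → ℝ) :
    Oc g₁ g₂ g₃ g₄ g₅ g₆ = Oc g₃ g₄ g₁ g₂ g₅ g₆ := by
  unfold Oc
  rw [Finset.expect_comm]
  refine Finset.expect_congr rfl fun k _ => Finset.expect_congr rfl fun h _ =>
    Finset.expect_congr rfl fun d _ => ?_
  rw [add_comm k h]
  ring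

theorem oc_s3 (g₁ g₂ g₃ g₄ g₅ g₆ : V → ℝ) :
    Oc g₁ g₂ g₃ g₄ g₅ g₆ = Oc g₅ g₆ g₃ g₄ g₁ g₂ := by
  unfold Oc
  rw [Finset.expect_comm, Finset.expect_comm (f := fun h k => 𝔼 d : V,
      g₅ h * g₆ (h + d) * g₃ k * g₄ (k + d) * g₁ (h + k) * g₂ (h + k + d))]
  refine Finset.expect_congr rfl fun k _ => ?_
  rw [← ex_tr (fun h => 𝔼 d : V,
      g₁ h * g₂ (h + d) * g₃ k * g₄ (k + d) * g₅ (h + k) * g₆ (h + k + d)) k]
  refine Finset.expect_congr rfl fun h _ => Finset.expect_congr rfl fun d _ => ?_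
  have a1 : k + h + k = h := by
    rw [show k + h + k = k + (k + h) by abel, add_add_self]
  rw [a1, add_comm k h]
  ring

/-- the function has small Fourier coefficients and is bounded by one -/
def Sm (κ : ℝ) (g : V → ℝ) : Prop :=
  (∀ v, |g v| ≤ 1) ∧ ∀ χ : Module.Dual (ZMod 2) V, |𝔼 v : V, g v * sg (χ v)| ≤ κ

theorem oc_bound (h : T_OCT) {ρ : ℝ} (hρ : 0 ≤ ρ) {g₁ g₂ g₃ g₄ g₅ g₆ : V → ℝ}
    (hs : Sm (ρ ^ 2) g₁) (h2 : ∀ v, |g₂ v| ≤ 1) (h3 : ∀ v, |g₃ v| ≤ 1) (h4 : ∀ v, |g₄ v| ≤ 1)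
    (h5 : ∀ v, |g₅ v| ≤ 1) (h6 : ∀ v, |g₆ v| ≤ 1) : |Oc g₁ g₂ g₃ g₄ g₅ g₆| ≤ ρ :=
  abs_le_of_sq_le_sq (h V g₁ g₂ g₃ g₄ g₅ g₆ (ρ ^ 2) hs.1 h2 h3 h4 h5 h6 hs.2) hρ

omit [Module (ZMod 2) V] in
theorem mean_mem {g : V → ℝ} (hg : ∀ v, 0 ≤ g v ∧ g v ≤ 1) : 0 ≤ 𝔼 v, g v ∧ 𝔼 v, g v ≤ 1 := by
  have : Nonempty V := ⟨0⟩
  refine ⟨Finset.expect_nonneg fun v _ => (hg v).1, ?_⟩
  calc 𝔼 v, g v ≤ 𝔼 v : V, (1 : ℝ) := ex_mono fun v => (hg v).2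
    _ = 1 := Fintype.expect_const 1

theorem sm_sub {g : V → ℝ} {κ : ℝ} (hκ : 0 ≤ κ) (hg : ∀ v, 0 ≤ g v ∧ g v ≤ 1) (hr : Reg κ g) :
    Sm κ (fun v => g v - 𝔼 w, g w) := by
  have : Nonempty V := ⟨0⟩
  obtain ⟨m0, m1⟩ := mean_mem hg
  constructor
  · intro v
    rw [abs_le]
    obtain ⟨a, b⟩ := hg v
    constructor <;> linarith
  · intro χ
    have e1 : (𝔼 v : V, (g v - 𝔼 w, g w) * sg (χ v)) =
        (𝔼 v : V, g v * sg (χ v)) - (𝔼 w, g w) * 𝔼 v : V, sg (χ v) := by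
      rw [Finset.mul_expect, ← Finset.expect_sub_distrib]
      refine Finset.expect_congr rfl fun v _ => ?_
      ring
    rw [e1]
    by_cases hχ : χ = 0
    · subst hχ
      have e2 : ∀ v : V, sg ((0 : Module.Dual (ZMod 2) V) v) = 1 := fun v => by
        rw [LinearMap.zero_apply, sg_zero]
      simp only [e2, mul_one]
      rw [Fintype.expect_const, mul_one, sub_self, abs_zero]
      exact hκ
    · have e2 : 𝔼 v : V, sg (χ v) = 0 := by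
        rw [Fintype.expect_eq_sum_div_card, sum_sg_hom (fun v => χ v) (fun x y => map_add χ x y),
          zero_div]
        by_contra hcon
        push Not at hcon
        exact hχ (LinearMap.ext hcon)
      rw [e2, mul_zero, sub_zero]
      exact hr χ hχ

omit [Module (ZMod 2) V] in
theorem oc_const (m₁ m₂ m₃ m₄ m₅ m₆ : ℝ) :
    Oc (V := V) (fun _ => m₁) (fun _ => m₂) (fun _ => m₃) (fun _ => m₄) (fun _ => m₅)
      (fun _ => m₆) = m₁ * m₂ * m₃ * m₄ * m₅ * m₆ := by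
  have : Nonempty V := ⟨0⟩
  unfold Oc
  rw [Fintype.expect_const, Fintype.expect_const, Fintype.expect_const]

end V

end H3

open H3

theorem oct2 (h : T_OCT) : T_OCT2 := by
  intro V _ _ _ g₁ g₂ g₃ g₄ g₅ g₆ ρ hρ h1 h2 h3 h4 h5 h6 r1 r2 r3 r4 r5 r6
  have hne : Nonempty V := ⟨0⟩
  have hb : ∀ {g : V → ℝ}, (∀ v, 0 ≤ g v ∧ g v ≤ 1) → ∀ v, |g v| ≤ 1 := by
    intro g hg v
    rw [abs_le]
    exact ⟨by linarith [(hg v).1], (hg v).2⟩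
  have hm : ∀ {g : V → ℝ}, (∀ v, 0 ≤ g v ∧ g v ≤ 1) → ∀ v : V, |(fun _ => 𝔼 w, g w) v| ≤ 1 := by
    intro g hg v
    exact hb (fun _ => mean_mem hg) v
  have hρ2 := sq_nonneg ρ
  set m₁ := 𝔼 v, g₁ v with hm1
  set m₂ := 𝔼 v, g₂ v with hm2
  set m₃ := 𝔼 v, g₃ v with hm3
  set m₄ := 𝔼 v, g₄ v with hm4
  set m₅ := 𝔼 v, g₅ v with hm5
  set m₆ := 𝔼 v, g₆ v with hm6
  have b1 : |Oc (fun v => g₁ v - m₁) g₂ g₃ g₄ g₅ g₆| ≤ ρ :=
    oc_bound h hρ (sm_sub hρ2 h1 r1) (hb h2) (hb h3) (hb h4) (hb h5) (hb h6)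
  have b2 : |Oc (fun _ => m₁) (fun v => g₂ v - m₂) g₃ g₄ g₅ g₆| ≤ ρ := by
    rw [oc_s1]
    exact oc_bound h hρ (sm_sub hρ2 h2 r2) (hm h1) (hb h3) (hb h4) (hb h6) (hb h5)
  have b3 : |Oc (fun _ => m₁) (fun _ => m₂) (fun v => g₃ v - m₃) g₄ g₅ g₆| ≤ ρ := by
    rw [oc_s2]
    exact oc_bound h hρ (sm_sub hρ2 h3 r3) (hb h4) (hm h1) (hm h2) (hb h5) (hb h6)
  have b4 : |Oc (fun _ => m₁) (fun _ => m₂) (fun _ => m₃) (fun v => g₄ v - m₄) g₅ g₆| ≤ ρ := by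
    rw [oc_s2, oc_s1]
    exact oc_bound h hρ (sm_sub hρ2 h4 r4) (hm h3) (hm h1) (hm h2) (hb h6) (hb h5)
  have b5 : |Oc (fun _ => m₁) (fun _ => m₂) (fun _ => m₃) (fun _ => m₄)
      (fun v => g₅ v - m₅) g₆| ≤ ρ := by
    rw [oc_s3]
    exact oc_bound h hρ (sm_sub hρ2 h5 r5) (hb h6) (hm h3) (hm h4) (hm h1) (hm h2)
  have b6 : |Oc (fun _ => m₁) (fun _ => m₂) (fun _ => m₃) (fun _ => m₄) (fun _ => m₅)
      (fun v => g₆ v - m₆)| ≤ ρ := by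
    rw [oc_s3, oc_s1]
    exact oc_bound h hρ (sm_sub hρ2 h6 r6) (hm h5) (hm h3) (hm h4) (hm h2) (hm h1)
  have tel : Oc g₁ g₂ g₃ g₄ g₅ g₆ - m₁ * m₂ * m₃ * m₄ * m₅ * m₆ =
      Oc (fun v => g₁ v - m₁) g₂ g₃ g₄ g₅ g₆ +
      Oc (fun _ => m₁) (fun v => g₂ v - m₂) g₃ g₄ g₅ g₆ +
      Oc (fun _ => m₁) (fun _ => m₂) (fun v => g₃ v - m₃) g₄ g₅ g₆ +
      Oc (fun _ => m₁) (fun _ => m₂) (fun _ => m₃) (fun v => g₄ v - m₄) g₅ g₆ +
      Oc (fun _ => m₁) (fun _ => m₂) (fun _ => m₃) (fun _ => m₄) (fun v => g₅ v - m₅) g₆ +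
      Oc (fun _ => m₁) (fun _ => m₂) (fun _ => m₃) (fun _ => m₄) (fun _ => m₅)
        (fun v => g₆ v - m₆) := by
    rw [← oc_const (V := V) m₁ m₂ m₃ m₄ m₅ m₆]
    unfold Oc
    simp only [← Finset.expect_add_distrib, ← Finset.expect_sub_distrib]
    refine Finset.expect_congr rfl fun x _ => Finset.expect_congr rfl fun k _ =>
      Finset.expect_congr rfl fun d _ => ?_
    ring
  change |Oc g₁ g₂ g₃ g₄ g₅ g₆ - m₁ * m₂ * m₃ * m₄ * m₅ * m₆| ≤ 6 * ρ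
  rw [tel]
  rw [abs_le] at b1 b2 b3 b4 b5 b6 ⊢
  constructor
  · linarith [b1.1, b2.1, b3.1, b4.1, b5.1, b6.1]
  · linarith [b1.2, b2.2, b3.2, b4.2, b5.2, b6.2]

theorem tri (h : T_OCT2) : T_TRI := by
  intro V _ _ _ g₁ g₂ g₃ ρ hρ h1 h2 h3 r1 r2 r3
  have hne : Nonempty V := ⟨0⟩
  have hr : Reg (ρ ^ 2) (fun _ : V => (1 : ℝ)) := by
    intro χ hχ
    have e2 : 𝔼 v : V, sg (χ v) = 0 := by
      rw [Fintype.expect_eq_sum_div_card, sum_sg_hom (fun v => χ v) (fun x y => map_add χ x y),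
        zero_div]
      by_contra hcon
      push Not at hcon
      exact hχ (LinearMap.ext hcon)
    simp only [one_mul]
    rw [e2, abs_zero]
    exact sq_nonneg ρ
  have h01 : ∀ v : V, 0 ≤ (fun _ : V => (1 : ℝ)) v ∧ (fun _ : V => (1 : ℝ)) v ≤ 1 :=
    fun v => ⟨zero_le_one, le_refl _⟩
  have key := h V g₁ (fun _ => 1) g₂ (fun _ => 1) g₃ (fun _ => 1) ρ hρ h1 h01 h2 h01 h3 h01
    r1 hr r2 hr r3 hr
  simp only [mul_one, Fintype.expect_const] at key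
  exact key

end Pool.Agent.H81.SQ
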