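import Pool.Agent.H3.SQ.SYM

/-!
Module STA: one-sided step, choice of the anchor (pigeonhole and cut).
-/

namespace Pool.Agent.H45.SQ

open Finset Polynomial
open scoped BigOperators ComplexConjugate ComplexOrder

namespace H3

section mat

variable {G : Type} [Fintype G] [DecidableEq G]

omit [DecidableEq G] in
theorem qf_eq (M : Matrix G G ℂ) (g : G → ℂ) : qf M g = (dotProduct (star g) (M.mulVec g)).re := by
  simp [qf, dotProduct]

omit [DecidableEq G] in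
theorem qf_sandwich {P : Matrix G G ℂ} (hP : P.IsHermitian) (R : Matrix G G ℂ) (g : G → ℂ) :
    qf (P * R * P) g = qf R (P.mulVec g) := by
  rw [qf_eq, qf_eq, Matrix.star_mulVec, hP.eq, Matrix.mul_assoc, ← Matrix.mulVec_mulVec,
    ← Matrix.mulVec_mulVec, Matrix.dotProduct_mulVec]

omit [DecidableEq G] in
theorem opLe_neg {M : Matrix G G ℂ} {c : ℝ} (h : OpLe M c) : OpLe (-M) c := by
  refine ⟨h.1, fun g => ?_⟩
  have := h.2 g
  simpa [Matrix.neg_mulVec] using this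

omit [DecidableEq G] in
theorem proj_sub {P P₁ : Matrix G G ℂ} (hP : Proj P) (hP₁ : Proj P₁) (h1 : P * P₁ = P₁)
    (h2 : P₁ * P = P₁) : Proj (P - P₁) := by
  refine ⟨hP.1.sub hP₁.1, ?_⟩
  rw [Matrix.sub_mul, Matrix.mul_sub, Matrix.mul_sub, hP.2, hP₁.2, h1, h2]
  simp

end mat

theorem Th_sub {G : Type} [AddCommGroup G] [Fintype G] (s t : G) (A A' B C : Matrix G G ℂ) :
    Th s t (A - A') B C = Th s t A B C - Th s t A' B C := by
  unfold Th
  rw [← mul_sub, ← Finset.sum_sub_distrib]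
  congr 1
  refine Finset.sum_congr rfl fun y _ => ?_
  rw [← Finset.sum_sub_distrib]
  refine Finset.sum_congr rfl fun y' _ => ?_
  rw [Matrix.sub_apply]
  ring

end H3

open H3

theorem sta (hO : T_OPT) (hF : T_FLAT) (hE : T_ENT) (hCut : T_CUT) (hPig : T_PIG) : T_STA := by
  intro K θ p ξ ε m DA DB DC hK hθ hp hξ hε
  obtain ⟨J, q, hq, hcut⟩ := hCut DA ((2 * K) ^ 2) ξ ε (by positivity) hξ hε
  set κ := Fin m × Fin J × Fin DA with hκ
  refine ⟨p ^ 2 / (2 * ((Fintype.card κ : ℝ) + 1)), J, q, by positivity, hq, ?_⟩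
  intro G _ _ _ _ f Λ A B C PA PB PC S XB hconf hXB hSp
  have hG : Nonempty G := ⟨0⟩
  have hN : (0 : ℝ) < Fintype.card G := by exact_mod_cast Fintype.card_pos
  have hSne : S.Nonempty := by
    rw [← Finset.card_pos]
    have h1 := hconf.card
    have h2 : 0 < p * (Fintype.card G : ℝ) ^ 2 := by positivity
    exact_mod_cast h2.trans_le h1
  -- flatness
  have hflat : ∀ z ∈ S, ∀ i y, ‖XB z.2 i y‖ ≤ 2 * K := by
    intro z hz i
    obtain ⟨h1, h2⟩ := hXB z hz i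
    exact hF G (mat B z.2) (PB z.2) DB K hK.le ((hE G B K hconf.sepB).2.1 z.2) (hconf.gapB z hz)
      _ h1 h2
  -- the cut
  have key : ∀ z ∈ S, ∃ (c : κ) (P₁ : Matrix G G ℂ), 1 ≤ (c.2.2 : ℕ) ∧ Proj P₁ ∧
      P₁.trace = ((c.2.2 : ℕ) : ℂ) ∧ PA z.1 * P₁ = P₁ ∧ P₁ * PA z.1 = P₁ ∧
      OpLe (aeval (PA z.1 * Rm z.1 z.2 (XB z.2 c.1) (PC (z.1 + z.2)) * PA z.1) (q c.2.1) - P₁) ε := by
    intro z hz
    obtain ⟨i, v, v', hv, hv', hn, hn', hsp⟩ := hSp z hz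
    have gA := hconf.gapA z hz
    have gC := hconf.gapC z hz
    have O1 := hO G (PA z.1) (PA z.1) 1 1
    have OC := hO G (PC (z.1 + z.2)) (PC (z.1 + z.2)) 1 1
    set R := Rm z.1 z.2 (XB z.2 i) (PC (z.1 + z.2)) with hR
    have hRh : R.IsHermitian := OC.2.2.2.2.2.2.2.2.2.1 (XB z.2 i) z.1 z.2 gC.proj.1
    have hR0 : ∀ g, 0 ≤ qf R g := OC.2.2.2.2.2.2.2.2.2.2 (XB z.2 i) z.1 z.2 gC.proj
    have hRo : OpLe R ((2 * K) ^ 2 * 1) :=
      OC.2.2.2.2.2.2.2.2.1 (XB z.2 i) (2 * K) z.1 z.2 (hflat z hz i) (OC.2.2.2.2.1 gC.proj)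
    have hPo : OpLe (PA z.1) 1 := O1.2.2.2.2.1 gA.proj
    have hKo : OpLe (PA z.1 * R * PA z.1) ((2 * K) ^ 2) := by
      have a1 := (hO G (PA z.1) R 1 ((2 * K) ^ 2 * 1)).2.2.1 hPo hRo
      have a2 := (hO G (PA z.1 * R) (PA z.1) (1 * ((2 * K) ^ 2 * 1)) 1).2.2.1 a1 hPo
      have e : 1 * ((2 * K) ^ 2 * 1) * 1 = (2 * K) ^ 2 := by ring
      rwa [e] at a2
    have hPP := gA.proj.2
    obtain ⟨j, D₁, P₁, hD1, hD2, hp1, htr, e1, e2, hop⟩ := hcut G (PA z.1)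
      (PA z.1 * R * PA z.1) gA.proj gA.rank
      (by
        have h1 := gA.proj.1.eq
        have h2 := hRh.eq
        unfold Matrix.IsHermitian
        rw [Matrix.conjTranspose_mul, Matrix.conjTranspose_mul, h1, h2, Matrix.mul_assoc])
      (by rw [← Matrix.mul_assoc, ← Matrix.mul_assoc, hPP])
      (by rw [Matrix.mul_assoc, hPP])
      (fun g => by rw [qf_sandwich gA.proj.1]; exact hR0 _) hKo
      ⟨v, v', hv, hv', hn, hn', by
        rw [qf_sandwich gA.proj.1, qf_sandwich gA.proj.1, hv, hv']; exact hsp⟩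
    exact ⟨(i, j, ⟨D₁, hD2⟩), P₁, hD1, hp1, htr, e1, e2, hop⟩
  have hκne : Nonempty κ := by
    obtain ⟨z, hz⟩ := hSne
    obtain ⟨c, -⟩ := key z hz
    exact ⟨c⟩
  have hκc : 0 < Fintype.card κ := Fintype.card_pos
  have key2 : ∀ z : G × G, ∃ (c : κ) (P₁ : Matrix G G ℂ), z ∈ S → (1 ≤ (c.2.2 : ℕ) ∧ Proj P₁ ∧
      P₁.trace = ((c.2.2 : ℕ) : ℂ) ∧ PA z.1 * P₁ = P₁ ∧ P₁ * PA z.1 = P₁ ∧
      OpLe (aeval (PA z.1 * Rm z.1 z.2 (XB z.2 c.1) (PC (z.1 + z.2)) * PA z.1) (q c.2.1) - P₁)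
        ε) := by
    intro z
    by_cases hz : z ∈ S
    · obtain ⟨c, P₁, h⟩ := key z hz
      exact ⟨c, P₁, fun _ => h⟩
    · exact ⟨Classical.arbitrary κ, 0, fun h => absurd h hz⟩
  choose col P₁ hcol using key2
  obtain ⟨t₀, k, hk⟩ := hPig G κ S p col hp.le hconf.card hκc
  set S₁ := S.filter fun z => (z.1, t₀) ∈ S ∧ col (z.1, t₀) = k with hS₁
  have hκr : (0 : ℝ) < Fintype.card κ := by exact_mod_cast hκc
  have hS₁ne : S₁.Nonempty := by
    rw [← Finset.card_pos]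
    have h2 : 0 < p ^ 2 / (Fintype.card κ : ℝ) * (Fintype.card G : ℝ) ^ 2 := by positivity
    exact_mod_cast h2.trans_le hk
  obtain ⟨z₀, hz₀⟩ := hS₁ne
  obtain ⟨hz₀S, hz₀t, hz₀k⟩ : z₀ ∈ S ∧ (z₀.1, t₀) ∈ S ∧ col (z₀.1, t₀) = k := by
    simpa [hS₁] using hz₀
  have hX₀ : ∀ y, ‖XB t₀ k.1 y‖ ≤ 2 * K := hflat (z₀.1, t₀) hz₀t k.1
  have hk1 : 1 ≤ (k.2.2 : ℕ) := by
    have := (hcol (z₀.1, t₀) hz₀t).1
    rwa [hz₀k] at this
  have hkD : (k.2.2 : ℕ) < DA := k.2.2.2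
  -- the two parts
  set Su := S₁.filter fun z =>
    θ / 2 ≤ (Th z.1 z.2 (P₁ (z.1, t₀)) (PB z.2) (PC (z.1 + z.2))).re with hSu
  set Sl := S₁.filter fun z =>
    ¬ θ / 2 ≤ (Th z.1 z.2 (P₁ (z.1, t₀)) (PB z.2) (PC (z.1 + z.2))).re with hSl
  have hcard : Su.card + Sl.card = S₁.card := Finset.card_filter_add_card_filter_not _
  have hp' : p ^ 2 / (2 * ((Fintype.card κ : ℝ) + 1)) * (Fintype.card G : ℝ) ^ 2 ≤
      (S₁.card : ℝ) / 2 := by
    have h1 : p ^ 2 / (2 * ((Fintype.card κ : ℝ) + 1)) ≤ p ^ 2 / (Fintype.card κ : ℝ) / 2 := by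
      rw [div_div, mul_comm (Fintype.card κ : ℝ) 2]
      apply div_le_div_of_nonneg_left (by positivity) (by positivity)
      linarith
    calc p ^ 2 / (2 * ((Fintype.card κ : ℝ) + 1)) * (Fintype.card G : ℝ) ^ 2 ≤
        p ^ 2 / (Fintype.card κ : ℝ) / 2 * (Fintype.card G : ℝ) ^ 2 :=
          mul_le_mul_of_nonneg_right h1 (by positivity)
      _ = (p ^ 2 / (Fintype.card κ : ℝ) * (Fintype.card G : ℝ) ^ 2) / 2 := by ring
      _ ≤ _ := by
        have := hk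
        linarith
  have hmem : ∀ z ∈ S₁, z ∈ S ∧ (z.1, t₀) ∈ S ∧ col (z.1, t₀) = k := by
    intro z hz
    simpa [hS₁] using hz
  have hcast : (S₁.card : ℝ) = (Su.card : ℝ) + (Sl.card : ℝ) := by exact_mod_cast hcard.symm
  by_cases hhalf : (S₁.card : ℝ) / 2 ≤ (Su.card : ℝ)
  · refine ⟨t₀, XB t₀ k.1, true, k.2.1, k.2.2, fun s => P₁ (s, t₀), Su, hX₀, hkD, ?_,
      hp'.trans hhalf, ?_⟩
    · intro z hz
      exact (hmem z (Finset.mem_filter.1 hz).1).1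
    · intro z hz
      obtain ⟨hz1, hz2⟩ := Finset.mem_filter.1 hz
      obtain ⟨hzS, hzt, hzk⟩ := hmem z hz1
      obtain ⟨-, b2, b3, b4, b5, b6⟩ := hcol (z.1, t₀) hzt
      rw [hzk] at b3 b6
      refine ⟨hzt, b2, b3, ?_, hz2⟩
      simp only [Lex, if_true]
      exact b6
  · have hl : (S₁.card : ℝ) / 2 ≤ (Sl.card : ℝ) := by
      push Not at hhalf
      linarith
    refine ⟨t₀, XB t₀ k.1, false, k.2.1, DA - k.2.2, fun s => PA s - P₁ (s, t₀), Sl, hX₀,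
      by omega, ?_, hp'.trans hl, ?_⟩
    · intro z hz
      exact (hmem z (Finset.mem_filter.1 hz).1).1
    · intro z hz
      obtain ⟨hz1, hz2⟩ := Finset.mem_filter.1 hz
      obtain ⟨hzS, hzt, hzk⟩ := hmem z hz1
      obtain ⟨-, b2, b3, b4, b5, b6⟩ := hcol (z.1, t₀) hzt
      rw [hzk] at b3 b6
      have gA := hconf.gapA z hzS
      refine ⟨hzt, proj_sub gA.proj b2 b4 b5, ?_, ?_, ?_⟩
      · rw [Matrix.trace_sub, gA.rank, b3, Nat.cast_sub hkD.le]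
      · simp only [Lex, Bool.false_eq_true, if_false]
        have := opLe_neg b6
        convert this using 1
        abel
      · have h1 := hconf.theta z hzS
        rw [Th_sub, Complex.sub_re]
        push Not at hz2
        linarith

end Pool.Agent.H45.SQ
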