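import Pool.Agent.H45.SQ.Targets1

/-!
Module SYM: symmetries and monotonicity of configurations.
-/

namespace Pool.Agent.H45.SQ

open Finset Polynomial
open scoped BigOperators ComplexConjugate ComplexOrder

namespace H3

variable {G : Type} [AddCommGroup G] [Fintype G] [DecidableEq G] [Module (ZMod 2) G]

omit [Fintype G] [DecidableEq G] in
theorem add_self (x : G) : x + x = 0 := by
  have h := two_smul (ZMod 2) x
  have h2 : (2 : ZMod 2) = 0 := by decide
  rw [h2, zero_smul] at h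
  exact h.symm

omit [Fintype G] [DecidableEq G] in
theorem add_add_self (x y : G) : x + (x + y) = y := by
  rw [← add_assoc, add_self, zero_add]

omit [AddCommGroup G] [DecidableEq G] [Module (ZMod 2) G] in
theorem qf_nonneg {M : Matrix G G ℂ} (hM : M.PosSemidef) (g : G → ℂ) : 0 ≤ qf M g := by
  have h := hM.dotProduct_mulVec_nonneg g
  have h2 := (Complex.le_def.1 h).1
  simpa [qf, dotProduct] using h2

omit [AddCommGroup G] [DecidableEq G] [Module (ZMod 2) G] in
theorem proj_eq_zero {P : Matrix G G ℂ} (hP : Proj P) (h : P.trace = 0) : P = 0 := by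
  have h1 : (P.conjTranspose * P).trace = 0 := by
    rw [hP.1.eq, hP.2, h]
  exact Matrix.trace_conjTranspose_mul_self_eq_zero_iff.1 h1

omit [AddCommGroup G] [Fintype G] [DecidableEq G] [Module (ZMod 2) G] in
theorem sep_mono {L : Fam G} {C C' : ℝ} (h : Sep C L) (hC : C ≤ C') : Sep C' L := by
  obtain ⟨Ω, _, c, a, b, h1, h2, h3, h4⟩ := h
  exact ⟨Ω, _, c, a, b, h1, h2, h3.trans hC, h4⟩

omit [Module (ZMod 2) G] [DecidableEq G] in
theorem dom_mono {f : G → G → ℂ} {L : Fam G} {Λ Λ' : ℝ} (h : Dom f Λ L) (hΛ : Λ ≤ Λ')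
    (hp : ∀ s, (mat (rho f) s).PosSemidef) : Dom f Λ' L := by
  intro s g
  exact (h s g).trans (mul_le_mul_of_nonneg_right hΛ (qf_nonneg (hp s) g))

end H3

open H3

theorem sym (hT : T_TWI) (hS : T_SHARP) (hR : T_RHO) : T_SYM := by
  intro G _ _ _ _ f K Λ θ p DA DB DC
  refine ⟨?_, ?_, ?_, ?_⟩
  · rintro ⟨A, B, C, PA, PB, PC, S, h⟩
    let φ : G × G → G × G := fun z => (z.2, z.1 + z.2)
    have hφ : Function.Injective φ := by
      rintro ⟨a, b⟩ ⟨c, d⟩ hh
      simp only [φ, Prod.mk.injEq] at hh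
      obtain ⟨h1, h2⟩ := hh
      subst h1
      rw [add_left_inj] at h2
      rw [h2]
    have e : ∀ z : G × G, z.2 + (z.1 + z.2) = z.1 := by
      intro z
      rw [add_comm z.1 z.2, add_add_self]
    refine ⟨B, C, A, PB, PC, PA, S.image φ, ⟨h.sepB, h.sepC, h.sepA, h.hermB, h.hermC, h.hermA,
      h.domB, h.domC, h.domA, ?_, ?_, ?_, ?_, ?_⟩⟩
    · rw [Finset.card_image_of_injective _ hφ]
      exact h.card
    · intro z' hz'
      obtain ⟨z, hz, rfl⟩ := Finset.mem_image.1 hz'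
      exact h.gapB z hz
    · intro z' hz'
      obtain ⟨z, hz, rfl⟩ := Finset.mem_image.1 hz'
      exact h.gapC z hz
    · intro z' hz'
      obtain ⟨z, hz, rfl⟩ := Finset.mem_image.1 hz'
      have := h.gapA z hz
      change Gap (mat A (z.2 + (z.1 + z.2))) (PA (z.2 + (z.1 + z.2))) DA
      rw [e]
      exact this
    · intro z' hz'
      obtain ⟨z, hz, rfl⟩ := Finset.mem_image.1 hz'
      have h1 := h.theta z hz
      rw [(hT G z.1 z.2 (PA z.1) (PA z.1) (PA z.1) (PB z.2) (PC (z.1 + z.2))).2.2.2.2] at h1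
      change θ ≤ (Th z.2 (z.1 + z.2) (PB z.2) (PC (z.1 + z.2)) (PA (z.2 + (z.1 + z.2)))).re
      rw [e]
      exact h1
  · rintro ⟨A, B, C, PA, PB, PC, S, h⟩
    have sA := hS G f A
    have sB := hS G f B
    have sC := hS G f C
    refine ⟨sharp B, sharp A, sharp C, fun s => twist s (PB s), fun s => twist s (PA s),
      fun s => twist s (PC s), S.image Prod.swap,
      ⟨sB.1 _ h.sepB, sA.1 _ h.sepA, sC.1 _ h.sepC, sB.2.1 h.hermB, sA.2.1 h.hermA,
        sC.2.1 h.hermC, sB.2.2.2.2.1 _ h.domB, sA.2.2.2.2.1 _ h.domA, sC.2.2.2.2.1 _ h.domC,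
        ?_, ?_, ?_, ?_, ?_⟩⟩
    · rw [Finset.card_image_of_injective _ Prod.swap_injective]
      exact h.card
    · intro z' hz'
      obtain ⟨z, hz, rfl⟩ := Finset.mem_image.1 hz'
      change Gap (mat (sharp B) z.2) (twist z.2 (PB z.2)) DB
      rw [sB.2.2.1]
      exact (hT G z.2 z.2 (mat B z.2) (PB z.2) (PA z.1) (PA z.1) (PA z.1)).1 DB (h.gapB z hz)
    · intro z' hz'
      obtain ⟨z, hz, rfl⟩ := Finset.mem_image.1 hz'
      change Gap (mat (sharp A) z.1) (twist z.1 (PA z.1)) DA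
      rw [sA.2.2.1]
      exact (hT G z.1 z.2 (mat A z.1) (PA z.1) (PA z.1) (PA z.1) (PA z.1)).1 DA (h.gapA z hz)
    · intro z' hz'
      obtain ⟨z, hz, rfl⟩ := Finset.mem_image.1 hz'
      change Gap (mat (sharp C) (z.2 + z.1)) (twist (z.2 + z.1) (PC (z.2 + z.1))) DC
      rw [sC.2.2.1, add_comm z.2 z.1]
      exact (hT G (z.1 + z.2) z.2 (mat C (z.1 + z.2)) (PC (z.1 + z.2)) (PA z.1) (PA z.1)
        (PA z.1)).1 DC (h.gapC z hz)
    · intro z' hz'
      obtain ⟨z, hz, rfl⟩ := Finset.mem_image.1 hz'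
      change θ ≤ (Th z.2 z.1 (twist z.2 (PB z.2)) (twist z.1 (PA z.1))
        (twist (z.2 + z.1) (PC (z.2 + z.1)))).re
      rw [add_comm z.2 z.1,
        (hT G z.1 z.2 (PA z.1) (PA z.1) (PA z.1) (PB z.2) (PC (z.1 + z.2))).2.2.2.1,
        Complex.conj_re]
      exact h.theta z hz
  · rintro K' Λ' θ' p' hf hK hΛ hθ hp ⟨A, B, C, PA, PB, PC, S, h⟩
    have hps := (hR G f hf).2.2.1
    refine ⟨A, B, C, PA, PB, PC, S, ⟨sep_mono h.sepA hK, sep_mono h.sepB hK, sep_mono h.sepC hK,
      h.hermA, h.hermB, h.hermC, dom_mono h.domA hΛ hps, dom_mono h.domB hΛ hps,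
      dom_mono h.domC hΛ hps, ?_, h.gapA, h.gapB, h.gapC, fun z hz => hθ.trans (h.theta z hz)⟩⟩
    exact (mul_le_mul_of_nonneg_right hp (by positivity)).trans h.card
  · rintro hθ hp ⟨A, B, C, PA, PB, PC, S, h⟩
    have hN : (0 : ℝ) < Fintype.card G := by
      have : Nonempty G := ⟨0⟩
      exact_mod_cast Fintype.card_pos
    have hS : S.Nonempty := by
      rw [← Finset.card_pos]
      have h1 := h.card
      have h2 : 0 < p * (Fintype.card G : ℝ) ^ 2 := by positivity
      exact_mod_cast h2.trans_le h1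
    obtain ⟨z, hz⟩ := hS
    have h1 := h.theta z hz
    refine ⟨?_, ?_, ?_⟩
    · by_contra hcon
      have hD : DA = 0 := by omega
      have h2 := proj_eq_zero (h.gapA z hz).proj (by rw [(h.gapA z hz).rank, hD]; simp)
      rw [h2] at h1
      have h3 : Th z.1 z.2 (0 : Matrix G G ℂ) (PB z.2) (PC (z.1 + z.2)) = 0 := by
        simp [Th]
      rw [h3] at h1
      simp at h1
      linarith
    · by_contra hcon
      have hD : DB = 0 := by omega
      have h2 := proj_eq_zero (h.gapB z hz).proj (by rw [(h.gapB z hz).rank, hD]; simp)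
      rw [h2] at h1
      have h3 : Th z.1 z.2 (PA z.1) (0 : Matrix G G ℂ) (PC (z.1 + z.2)) = 0 := by
        simp [Th]
      rw [h3] at h1
      simp at h1
      linarith
    · by_contra hcon
      have hD : DC = 0 := by omega
      have h2 := proj_eq_zero (h.gapC z hz).proj (by rw [(h.gapC z hz).rank, hD]; simp)
      rw [h2] at h1
      have h3 : Th z.1 z.2 (PA z.1) (PB z.2) (0 : Matrix G G ℂ) = 0 := by
        simp [Th]
      rw [h3] at h1
      simp at h1
      linarith

end Pool.Agent.H45.SQ
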